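import Pool.Agent.Q292.Broadcast.Core2

set_option autoImplicit false

/-!
# MP_7de179_co: the lower bn-independent broadcast number and spanning trees

For every finite connected graph `G`, `i_bn(G)` is the least value of `i_bn(T)` over the spanning
trees `T` of `G`.
-/

namespace Pool.Agent.Results.MP_7de179_co.SpanningTrees

open SimpleGraph Finset Pool.Agent.Q292.Broadcast

variable {V : Type*} [Fintype V] {G : SimpleGraph V}

lemma near_le {T : SimpleGraph V} (h : T ≤ G) {x y : V} {r : ℕ} (hn : Near T x y r) :
    Near G x y r := by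
  obtain ⟨p, hp⟩ := near_iff_walk.1 hn
  exact near_of_walk (p.mapLe h) (by simpa using hp)

/-- A connected spanning subgraph has no smaller lower bn-independent broadcast number. -/
lemma exists_le_of_spanning {T : SimpleGraph V} (hT : T ≤ G) (hc : T.Connected) {f : V → ℕ}
    (hf : IsMaxBn T f) : ∃ g, IsMaxBn G g ∧ cost g ≤ cost f := by
  apply exists_maxBn_of_fun f
  · intro x
    obtain ⟨v, hv⟩ := hf.dom x
    exact ⟨v, hv.1, near_le hT hv.2⟩
  · intro v hv
    rcases hf.link v hv with h | ⟨u, hu1, hu2, x, hx1, hx2⟩
    · exact Or.inl fun x _ => near_le hT (h x (hc.preconnected v x))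
    · exact Or.inr ⟨u, hu1, hu2, x, near_le hT hx1, near_le hT hx2⟩

/-- The forest of parent edges is acyclic. -/
lemma acyclic_of_parent (p : V → V) (δ : V → ℕ) (R : V → Prop)
    (hδ : ∀ x, ¬ R x → δ (p x) < δ x) :
    (SimpleGraph.fromRel fun x y => ¬ R x ∧ y = p x).IsAcyclic := by
  classical
  intro v c hc
  obtain ⟨x, hx, hmax⟩ := Finset.exists_max_image c.support.toFinset δ
    ⟨v, by simp⟩
  rw [List.mem_toFinset] at hx
  have hc' := hc.rotate hx
  set d := c.rotate x hx with hd
  have hsup : ∀ y, y ∈ d.support → δ y ≤ δ x := by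
    intro y hy
    apply hmax
    rw [List.mem_toFinset]
    exact (c.mem_support_rotate_iff x hx).1 hy
  have hn : ¬ d.Nil := hc'.not_nil
  have h1 := d.adj_snd hn
  have h2 := d.adj_penultimate hn
  have key : ∀ y, (SimpleGraph.fromRel fun x y => ¬ R x ∧ y = p x).Adj x y → y ∈ d.support →
      y = p x := by
    intro y hy hys
    rw [SimpleGraph.fromRel_adj] at hy
    rcases hy.2 with h | h
    · exact h.2
    · have := hδ y h.1
      rw [← h.2] at this
      have := hsup y hys
      omega
  exact hc'.snd_ne_penultimate ((key _ h1 (by simp)).trans (key _ h2.symm (by simp)).symm)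

/-- Some spanning tree carries a broadcast that is not more expensive. -/
lemma exists_tree (hG : G.Connected) {f : V → ℕ} (hf : IsMaxBn G f) :
    ∃ T, T ≤ G ∧ T.IsTree ∧ ∃ g, IsMaxBn T g ∧ cost g ≤ cost f := by
  classical
  choose o ho using hf.dom
  -- interior vertices hear only one vertex
  have hint : ∀ x v w, Hears G f x v → 0 < f w → Near G x w (f w - 1) → v = w := by
    intro x v w hv hw hn
    by_contra hne
    have h1 : Hears G f x w := ⟨hw, near_mono hn (Nat.sub_le _ _)⟩
    have := hf.2.1 x ⟨v, w, hne, hv, h1⟩ w hw hn.1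
    have := hn.2
    omega
  have hofix : ∀ v, 0 < f v → o v = v := fun v hv => hint v (o v) v (ho v) hv (near_refl _ _ _)
  -- parents
  have hpar : ∀ x, ∃ y, o x ≠ x → G.Adj x y ∧ G.dist y (o x) + 1 = G.dist x (o x) ∧
      o y = o x := by
    intro x
    by_cases hx : o x = x
    · exact ⟨x, fun h => absurd hx h⟩
    · have hreach := (ho x).2.1
      have hd : 0 < G.dist x (o x) := hreach.pos_dist_of_ne (Ne.symm hx)
      have hn : Near G x (o x) (1 + (G.dist x (o x) - 1)) := ⟨hreach, by omega⟩
      obtain ⟨y, hy1, hy2⟩ := near_split hn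
      have hxy : x ≠ y := by
        rintro rfl
        have := hy2.2
        omega
      have hadj : G.Adj x y := by
        have h1 : G.dist x y = 1 := by
          have := hy1.1.pos_dist_of_ne hxy
          have := hy1.2
          omega
        exact dist_eq_one_iff_adj.1 h1
      have htri : G.dist x (o x) ≤ G.dist x y + G.dist y (o x) := hG.dist_triangle
      refine ⟨y, fun _ => ⟨hadj, ?_, ?_⟩⟩
      · have := hy1.2
        have := hy2.2
        omega
      · have h1 := (ho x).1
        have h2 := (ho x).2.2
        exact hint y (o y) (o x) (ho y) h1 (near_mono hy2 (by omega))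
  choose p hp using hpar
  set F : SimpleGraph V := SimpleGraph.fromRel fun x y => ¬ (o x = x) ∧ y = p x with hF
  have hFac : F.IsAcyclic := by
    apply acyclic_of_parent p (fun x => G.dist x (o x)) (fun x => o x = x)
    intro x hx
    have h := hp x hx
    show G.dist (p x) (o (p x)) < G.dist x (o x)
    rw [h.2.2]
    omega
  -- edges with an end in the interior of some ball
  let H1 : SimpleGraph V :=
    { Adj := fun x y => G.Adj x y ∧ ∃ w, 0 < f w ∧ (Near G x w (f w - 1) ∨ Near G y w (f w - 1))
      symm := ⟨fun x y h => ⟨h.1.symm, by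
        obtain ⟨w, hw, h'⟩ := h.2
        exact ⟨w, hw, h'.symm⟩⟩⟩
      loopless := ⟨fun x h => G.loopless.irrefl x h.1⟩ }
  have hFadj : ∀ x, o x ≠ x → H1.Adj x (p x) := by
    intro x hx
    obtain ⟨h1, h2, h3⟩ := hp x hx
    refine ⟨h1, o x, (ho x).1, Or.inr ⟨h1.reachable.symm.trans (ho x).2.1, ?_⟩⟩
    have := (ho x).2.2
    omega
  have hFH1 : F ≤ H1 := by
    intro x y hxy
    rw [hF, SimpleGraph.fromRel_adj] at hxy
    rcases hxy.2 with h | h
    · rw [h.2]; exact hFadj x h.1
    · rw [h.2]; exact (hFadj y h.1).symm
  have hH1G : H1 ≤ G := fun x y h => h.1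
  obtain ⟨H, hFH, hHH1, hHac, hHreach⟩ :=
    H1.exists_isAcyclic_reachable_eq_le_of_le_of_isAcyclic hFH1 hFac
  obtain ⟨T, hHT, hTG, hT⟩ := hG.exists_isTree_le_of_le_of_isAcyclic (hHH1.trans hH1G) hHac
  have hFT : F ≤ T := hFH.trans hHT
  -- distances to the owner are preserved
  have hFdist : ∀ n x, G.dist x (o x) = n → Near F x (o x) n := by
    intro n
    induction n with
    | zero =>
      intro x hx
      have := (((ho x).2.1).dist_eq_zero_iff).1 hx
      rw [← this]
      exact near_refl _ _ _
    | succ n ih =>
      intro x hx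
      have hne : o x ≠ x := by
        intro h
        rw [h, dist_self] at hx
        omega
      obtain ⟨h1, h2, h3⟩ := hp x hne
      have h4 := ih (p x) (by rw [h3]; omega)
      rw [h3] at h4
      have h5 : F.Adj x (p x) := by
        rw [hF, SimpleGraph.fromRel_adj]
        exact ⟨h1.ne, Or.inl ⟨hne, rfl⟩⟩
      have := near_trans (near_adj h5) h4
      rwa [Nat.add_comm] at this
  have hTo : ∀ x, Near T x (o x) (f (o x)) := fun x =>
    near_mono (near_le hFT (hFdist _ x rfl)) (ho x).2.2
  refine ⟨T, hTG, hT, ?_⟩
  apply exists_maxBn_of_fun f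
  · intro x
    exact ⟨o x, (ho x).1, hTo x⟩
  · intro v hv
    by_cases hall : ∀ x, o x = v
    · left
      intro x _
      have := hTo x
      rw [hall x] at this
      exact near_symm this
    · right
      push Not at hall
      obtain ⟨x, hx⟩ := hall
      -- `v` is linked with another vertex in `G`
      have hlinkG : ∃ u, u ≠ v ∧ 0 < f u ∧ ∃ x, Near G v x (f v) ∧ Near G u x (f u) := by
        rcases hf.link v hv with h | h
        · refine ⟨o x, hx, (ho x).1, o x, h _ (hG.preconnected _ _), near_refl _ _ _⟩
        · exact h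
      obtain ⟨u, huv, hu, y, hy1, hy2⟩ := hlinkG
      -- geodesics inside a ball are walks of `H1`
      have hgeo : ∀ w, 0 < f w → ∀ n, n ≤ f w → ∀ z, Near G w z n → H1.Reachable w z := by
        intro w hw n
        induction n with
        | zero =>
          intro _ z hz
          have := ((hz.1).dist_eq_zero_iff).1 (by have := hz.2; omega)
          rw [this]
        | succ n ih =>
          intro hn z hz
          obtain ⟨a, ha1, ha2⟩ := near_split hz
          have h1 := ih (by omega) a ha1
          by_cases haz : a = z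
          · rw [← haz]; exact h1
          · have hadj : G.Adj a z := by
              have h1 : G.dist a z = 1 := by
                have := ha2.1.pos_dist_of_ne haz
                have := ha2.2
                omega
              exact dist_eq_one_iff_adj.1 h1
            have h2 : H1.Adj a z :=
              ⟨hadj, w, hw, Or.inl (near_symm (near_mono ha1 (by omega)))⟩
            exact h1.trans h2.reachable
      have hreach : H.Reachable v u := by
        rw [hHreach]
        exact (hgeo v hv _ le_rfl y hy1).trans (hgeo u hu _ le_rfl y hy2).symm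
      obtain ⟨q⟩ := hreach
      obtain ⟨d, hd1, hd2, hd3⟩ := q.exists_boundary_dart {z | o z = v}
        (by simpa using hofix v hv) (by
          show ¬ (o u = v)
          rw [hofix u hu]
          exact huv)
      obtain ⟨⟨a, b⟩, hab⟩ := d
      have hab' : H.Adj a b := hab
      change o a = v at hd2
      change ¬ (o b = v) at hd3
      have hT' : T.Adj a b := hHT hab'
      obtain ⟨-, w, hw, hw'⟩ := hHH1 hab'
      refine ⟨o b, hd3, (ho b).1, ?_⟩
      rcases hw' with hw' | hw'
      · -- `a` is interior to the ball of `v`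
        have hwv : v = w := by
          rw [← hd2]
          exact hint a (o a) w (ho a) hw hw'
        subst hwv
        refine ⟨b, ?_, near_symm (hTo b)⟩
        have h1 := near_le hFT (hFdist _ a rfl)
        rw [hd2] at h1
        have h2 := near_trans (near_symm h1) (near_adj hT')
        have h3 := hw'.2
        exact near_mono h2 (by omega)
      · -- `b` is interior to the ball of its owner
        have hwb : o b = w := hint b (o b) w (ho b) hw hw'
        refine ⟨a, ?_, ?_⟩
        · have := hTo a
          rw [hd2] at this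
          exact near_symm this
        · have h1 := near_le hFT (hFdist _ b rfl)
          have h2 := near_trans (near_symm h1) (near_adj hT'.symm)
          have h3 := hw'.2
          rw [← hwb] at h3 hw
          exact near_mono h2 (by omega)

/-- Maximal bn-independent broadcasts exist on connected graphs. -/
lemma exists_maxBn (hG : G.Connected) : ∃ f, IsMaxBn G f := by
  classical
  obtain ⟨v⟩ := hG.nonempty
  obtain ⟨g, hg, -⟩ := exists_maxBn_of_fun (G := G)
    (fun x => if x = v then ecc G v + 1 else 0)
    (fun x => ⟨v, by simp, near_symm ⟨hG.preconnected v x, by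
      simpa using (dist_le_ecc v x).trans (Nat.le_succ _)⟩⟩)
    (fun u hu => by
      have huv : u = v := by
        by_contra h
        simp [h] at hu
      subst huv
      left
      intro x hx
      exact ⟨hx, by simpa using (dist_le_ecc u x).trans (Nat.le_succ _)⟩)
  exact ⟨g, hg⟩

lemma ibn_spec (hG : G.Connected) : ∃ f, IsMaxBn G f ∧ cost f = ibn G := by
  have hne : {c | ∃ f, IsMaxBn G f ∧ cost f = c}.Nonempty := by
    obtain ⟨f, hf⟩ := exists_maxBn hG
    exact ⟨_, f, hf, rfl⟩
  exact Nat.sInf_mem hne

lemma ibn_le {f : V → ℕ} (hf : IsMaxBn G f) : ibn G ≤ cost f := Nat.sInf_le ⟨f, hf, rfl⟩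

/-- **Theorem.** For every finite connected graph `G`: `i_bn(G)` is attained by some maximal
bn-independent broadcast, and it is the minimum of `i_bn(T)` over all spanning trees `T` of `G`. -/
theorem result (V : Type) [Fintype V] (G : SimpleGraph V) (hG : G.Connected) :
    IsLeast {c | ∃ f, IsMaxBn G f ∧ cost f = c} (ibn G) ∧
      IsLeast {m | ∃ T : SimpleGraph V, T ≤ G ∧ T.IsTree ∧ ibn T = m} (ibn G) := by
  refine ⟨⟨ibn_spec hG, ?_⟩, ?_, ?_⟩
  · rintro c ⟨f, hf, rfl⟩
    exact ibn_le hf
  · obtain ⟨f, hf, hfc⟩ := ibn_spec hG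
    obtain ⟨T, hTG, hT, g, hg, hgc⟩ := exists_tree hG hf
    refine ⟨T, hTG, hT, le_antisymm ?_ ?_⟩
    · calc ibn T ≤ cost g := ibn_le hg
        _ ≤ cost f := hgc
        _ = ibn G := hfc
    · obtain ⟨h, hh, hhc⟩ := ibn_spec hT.connected
      obtain ⟨k, hk, hkc⟩ := exists_le_of_spanning hTG hT.connected hh
      calc ibn G ≤ cost k := ibn_le hk
        _ ≤ cost h := hkc
        _ = ibn T := hhc
  · rintro m ⟨T, hTG, hT, rfl⟩
    obtain ⟨h, hh, hhc⟩ := ibn_spec hT.connected
    obtain ⟨k, hk, hkc⟩ := exists_le_of_spanning hTG hT.connected hh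
    calc ibn G ≤ cost k := ibn_le hk
      _ ≤ cost h := hkc
      _ = ibn T := hhc

end Pool.Agent.Results.MP_7de179_co.SpanningTrees
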